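import Pool.Agent.V11229.MCut
import Pool.Agent.V11229.Tuples
import Pool.Agent.V11229.CutCore

/-!
# Matching Cut is `NP`-complete on `S_{2,2,2,2}`-subgraph-free graphs
-/

namespace Pool.Agent.Results.MP_12d0d1_lc.MatchingCutS2222

open Pool.Agent.NPC Pool.Agent.V11229 Pool.Agent.V11229.MC

/-- The graph `S_{2,2,2,2}`: the star `K_{1,4}` with every edge subdivided once. The centre is
`none`, its neighbours are `some (i, false)`, and `some (i, false)` is joined to the leaf
`some (i, true)`. -/
def S2222 : SimpleGraph (Option (Fin 4 × Bool)) :=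
  SimpleGraph.fromRel (fun x y => (x = none ∧ ∃ i, y = some (i, false)) ∨
    ∃ i, x = some (i, false) ∧ y = some (i, true))

/-- `A` and its complement are nonempty and the edges between them form a matching: no vertex is in
two of them. -/
def IsMatchingCut {V : Type} (G : SimpleGraph V) (A : Set V) : Prop :=
  A.Nonempty ∧ Aᶜ.Nonempty ∧ ∀ u v w, G.Adj u v → G.Adj u w → ¬ (u ∈ A ↔ v ∈ A) →
    ¬ (u ∈ A ↔ w ∈ A) → v = w

/-- `G` has a matching cut. -/
def HasMatchingCut {V : Type} (G : SimpleGraph V) : Prop := ∃ A : Set V, IsMatchingCut G A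

/-- Matching Cut restricted to `S_{2,2,2,2}`-subgraph-free graphs. -/
def MCfree (X : FG) : Prop := S2222.Free X.G ∧ HasMatchingCut X.G

theorem s_adj1 (i : Fin 4) : S2222.Adj none (some (i, false)) := by
  rw [S2222, SimpleGraph.fromRel_adj]
  exact ⟨by simp, Or.inl (Or.inl ⟨rfl, i, rfl⟩)⟩

theorem s_adj2 (i : Fin 4) : S2222.Adj (some (i, false)) (some (i, true)) := by
  rw [S2222, SimpleGraph.fromRel_adj]
  exact ⟨by simp, Or.inl (Or.inr ⟨i, rfl, rfl⟩)⟩

/-- `S_{2,2,2,2}` in terms of nine different vertices. -/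
theorem contained_iff {V : Type} (G : SimpleGraph V) : ¬ S2222.Free G ↔
    ∃ f : Option (Fin 4 × Bool) → V, Function.Injective f ∧
      ∀ i, G.Adj (f none) (f (some (i, false))) ∧
        G.Adj (f (some (i, false))) (f (some (i, true))) := by
  unfold SimpleGraph.Free
  rw [not_not]
  constructor
  · rintro ⟨f⟩
    refine ⟨f, f.injective, fun i => ⟨?_, ?_⟩⟩
    · exact f.toHom.map_adj (s_adj1 i)
    · exact f.toHom.map_adj (s_adj2 i)
  · rintro ⟨f, hf, h⟩
    refine ⟨⟨⟨f, ?_⟩, hf⟩⟩
    intro x y hxy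
    rw [S2222, SimpleGraph.fromRel_adj] at hxy
    rcases hxy.2 with (⟨rfl, i, rfl⟩ | ⟨i, rfl, rfl⟩) | (⟨rfl, i, rfl⟩ | ⟨i, rfl, rfl⟩)
    · exact (h i).1
    · exact (h i).2
    · exact (h i).1.symm
    · exact (h i).2.symm

/-- A sufficient condition for being `S_{2,2,2,2}`-subgraph-free. -/
theorem free_of_groups {V : Type} (G : SimpleGraph V)
    (h : ∀ c, ∃ g : V → Fin 3, ∀ u v, G.Adj c u → G.Adj c v → u ≠ v → g u = g v →
      (∀ x, G.Adj u x → x = c ∨ x = v) ∨ (∀ x, G.Adj v x → x = c ∨ x = u)) :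
    S2222.Free G := by
  by_contra hc0
  have hc : ¬ S2222.Free G := fun h0 => h0 hc0
  rw [contained_iff] at hc
  obtain ⟨f, hf, hadj⟩ := hc
  obtain ⟨g, hg⟩ := h (f none)
  obtain ⟨i, j, hij, hgij⟩ := Fintype.exists_ne_map_eq_of_card_lt
    (fun i : Fin 4 => g (f (some (i, false)))) (by simp)
  have hne : f (some (i, false)) ≠ f (some (j, false)) := fun hh => hij (by simpa using hf hh)
  rcases hg _ _ (hadj i).1 (hadj j).1 hne hgij with h1 | h1
  · rcases h1 _ (hadj i).2 with h2 | h2
    · exact absurd (hf h2) (by simp)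
    · exact absurd (hf h2) (by simp)
  · rcases h1 _ (hadj j).2 with h2 | h2
    · exact absurd (hf h2) (by simp)
    · exact absurd (hf h2) (by simp)

/-! ### Membership in `NP` -/

/-- the position in a list of nine numbers of a vertex of `S_{2,2,2,2}` -/
def posn : Option (Fin 4 × Bool) → ℕ
  | none => 0
  | some (i, false) => 2 * i + 1
  | some (i, true) => 2 * i + 2

/-- the list of nine numbers is a copy of `S_{2,2,2,2}` -/
def isCopy (M : LMat Bool) (l : List ℕ) : Bool :=
  (List.range 9).all (fun i => (List.range 9).all (fun j => decide (i = j) ||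
    !(decide (l.getD i 0 = l.getD j 0)))) &&
  (List.range 4).all (fun i => M.ent false (l.getD 0 0) (l.getD (2 * i + 1) 0) &&
    M.ent false (l.getD (2 * i + 1) 0) (l.getD (2 * i + 2) 0))

/-- the search for a copy -/
def hasCopy (M : LMat Bool) : Bool := anyT 9 M.n [] (isCopy M)

theorem isCopy_poly : Poly (fun x : LMat Bool × List ℕ => isCopy x.1 x.2) := by
  unfold isCopy
  fun_prop

theorem hasCopy_poly : Poly hasCopy :=
  Poly.anyT 9 (p := isCopy) (UPoly.lmat_n NPC.Poly.id) (NPC.Poly.const []) isCopy_poly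

theorem hasCopy_iff (X : FG) : hasCopy X.mat = true ↔ ¬ S2222.Free X.G := by
  rw [contained_iff]
  unfold hasCopy
  rw [anyT_iff]
  simp only [List.append_nil, isCopy, Bool.and_eq_true, List.all_eq_true, List.mem_range,
    Bool.or_eq_true, decide_eq_true_eq, Bool.not_eq_true', decide_eq_false_iff_not, FG.mat_n]
  constructor
  · rintro ⟨l, hl, hlt, h1, h2⟩
    have hget : ∀ i < 9, l.getD i 0 < X.n := by
      intro i hi
      rw [List.getD_eq_getElem _ _ (by omega)]
      exact hlt _ (List.getElem_mem _)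
    have hpos : ∀ x, posn x < 9 := by
      rintro (_ | ⟨i, (_ | _)⟩) <;> simp only [posn] <;> omega
    refine ⟨fun x => ⟨l.getD (posn x) 0, hget _ (hpos x)⟩, ?_, ?_⟩
    · intro x y hxy
      have h3 := congrArg Fin.val hxy
      simp only at h3
      have h4 : posn x = posn y := by
        rcases h1 _ (hpos x) _ (hpos y) with h | h
        · exact h
        · exact absurd h3 h
      revert h4
      rcases x with (_ | ⟨i, (_ | _)⟩) <;> rcases y with (_ | ⟨j, (_ | _)⟩) <;>
        simp only [posn] <;> intro h4 <;>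
        first
        | rfl
        | omega
        | (have : i = j := Fin.ext (by omega)
           rw [this])
    · intro i
      obtain ⟨h3, h4⟩ := h2 i i.isLt
      exact ⟨(X.ent_iff ⟨l.getD 0 0, _⟩ ⟨l.getD (2 * i + 1) 0, _⟩).1 h3,
        (X.ent_iff ⟨l.getD (2 * i + 1) 0, _⟩ ⟨l.getD (2 * i + 2) 0, _⟩).1 h4⟩
  · rintro ⟨f, hf, hadj⟩
    let inv : ℕ → Option (Fin 4 × Bool) := fun k => if k = 0 then none else
      some (⟨((k - 1) / 2) % 4, Nat.mod_lt _ (by norm_num)⟩, decide (k % 2 = 0))
    have hinv : ∀ i < 4, inv (2 * i + 1) = some (⟨i % 4, Nat.mod_lt _ (by norm_num)⟩, false) ∧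
        inv (2 * i + 2) = some (⟨i % 4, Nat.mod_lt _ (by norm_num)⟩, true) := by
      intro i hi
      interval_cases i <;> simp [inv]
    let l : List ℕ := (List.range 9).map (fun k => (f (inv k) : ℕ))
    have hl : ∀ k < 9, l.getD k 0 = f (inv k) := by
      intro k hk
      rw [List.getD_eq_getElem _ _ (by simpa [l] using hk)]
      simp [l]
    refine ⟨l, by simp [l], ?_, ?_, ?_⟩
    · intro x hx
      simp only [l, List.mem_map] at hx
      obtain ⟨k, _, rfl⟩ := hx
      exact (f (inv k)).isLt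
    · intro i hi j hj
      by_cases hij : i = j
      · exact Or.inl hij
      · right
        rw [hl i hi, hl j hj]
        intro h
        have h2 := hf (Fin.ext h)
        apply hij
        revert h2
        clear h
        interval_cases i <;> interval_cases j <;> simp [inv] at hij ⊢
    · intro i hi
      rw [hl 0 (by norm_num), hl _ (by omega), hl _ (by omega), (hinv i hi).1, (hinv i hi).2]
      obtain ⟨h1, h2⟩ := hadj ⟨i % 4, Nat.mod_lt _ (by norm_num)⟩
      exact ⟨(X.ent_iff _ _).2 h1, (X.ent_iff _ _).2 h2⟩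

/-- the verifier -/
def ver (x : LMat Bool × List Bool) : Bool :=
  !(hasCopy x.1) && (((List.range x.1.n).any (fun i => x.2.getD i false) &&
    (List.range x.1.n).any (fun i => !(x.2.getD i false))) &&
  (List.range x.1.n).all (fun i => (List.range x.1.n).all (fun j => (List.range x.1.n).all (fun k =>
    !(x.1.ent false i j && (x.1.ent false i k && (!(decide (x.2.getD i false = x.2.getD j false)) &&
      !(decide (x.2.getD i false = x.2.getD k false))))) || decide (j = k)))))

theorem ver_poly : Poly ver := by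
  unfold ver
  have h0 : Poly (fun x : LMat Bool × List Bool => hasCopy x.1) :=
    hasCopy_poly.comp (by fun_prop)
  have h1 : Poly (fun x : LMat Bool × List Bool =>
      (List.range x.1.n).any (fun i => x.2.getD i false)) :=
    Poly.anyRange (n := fun x : LMat Bool × List Bool => x.1.n)
      (p := fun x i => x.2.getD i false) (UPoly.lmat_n (by fun_prop)) (by fun_prop)
  have h2 : Poly (fun x : LMat Bool × List Bool =>
      (List.range x.1.n).any (fun i => !(x.2.getD i false))) :=
    Poly.anyRange (n := fun x : LMat Bool × List Bool => x.1.n)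
      (p := fun x i => !(x.2.getD i false)) (UPoly.lmat_n (by fun_prop)) (by fun_prop)
  refine NPC.Poly.and (by fun_prop) (NPC.Poly.and (by fun_prop) ?_)
  refine Poly.allRange (n := fun x : LMat Bool × List Bool => x.1.n)
    (p := fun x i => (List.range x.1.n).all (fun j => (List.range x.1.n).all (fun k =>
    !(x.1.ent false i j && (x.1.ent false i k && (!(decide (x.2.getD i false = x.2.getD j false)) &&
      !(decide (x.2.getD i false = x.2.getD k false))))) || decide (j = k))))
    (UPoly.lmat_n (by fun_prop)) ?_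
  refine Poly.allRange (n := fun x : (LMat Bool × List Bool) × ℕ => x.1.1.n)
    (p := fun x j => (List.range x.1.1.n).all (fun k =>
    !(x.1.1.ent false x.2 j && (x.1.1.ent false x.2 k &&
      (!(decide (x.1.2.getD x.2 false = x.1.2.getD j false)) &&
      !(decide (x.1.2.getD x.2 false = x.1.2.getD k false))))) || decide (j = k)))
    (UPoly.lmat_n (by fun_prop)) ?_
  exact Poly.allRange (n := fun x : ((LMat Bool × List Bool) × ℕ) × ℕ => x.1.1.1.n)
    (p := fun x k => !(x.1.1.1.ent false x.1.2 x.2 && (x.1.1.1.ent false x.1.2 k &&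
      (!(decide (x.1.1.2.getD x.1.2 false = x.1.1.2.getD x.2 false)) &&
      !(decide (x.1.1.2.getD x.1.2 false = x.1.1.2.getD k false))))) || decide (x.2 = k))
    (UPoly.lmat_n (by fun_prop)) (by fun_prop)

theorem ver_iff (X : FG) (l : List Bool) : ver (X.mat, l) = true ↔
    S2222.Free X.G ∧ IsMatchingCut X.G {v : Fin X.n | l.getD v false = true} := by
  unfold ver IsMatchingCut
  rw [Bool.and_eq_true, Bool.not_eq_true', ← Bool.not_eq_true, hasCopy_iff, not_not]
  refine and_congr Iff.rfl ?_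
  simp only [Bool.and_eq_true, List.any_eq_true, List.mem_range, List.all_eq_true,
    Bool.or_eq_true, Bool.not_eq_true', FG.mat_n, decide_eq_true_eq, and_assoc]
  refine and_congr ?_ (and_congr ?_ ?_)
  · constructor
    · rintro ⟨i, hi, h⟩
      exact ⟨⟨i, hi⟩, h⟩
    · rintro ⟨i, h⟩
      exact ⟨i, i.isLt, h⟩
  · constructor
    · rintro ⟨i, hi, h⟩
      refine ⟨⟨i, hi⟩, ?_⟩
      simp only [Set.mem_compl_iff, Set.mem_ofPred_eq, h]
      simp
    · rintro ⟨i, h⟩
      refine ⟨i, i.isLt, ?_⟩
      simpa using h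
  · have key : ∀ i j : ℕ, (i < X.n) → (j < X.n) →
        ((decide (l.getD i false = l.getD j false)) = false ↔
        ¬ (l.getD i false = true ↔ l.getD j false = true)) := by
      intro i j _ _
      rw [decide_eq_false_iff_not, Bool.eq_iff_iff]
    constructor
    · intro h u v w huv huw h1 h2
      rcases h u u.isLt v v.isLt w w.isLt with h3 | h3
      · rw [(X.ent_iff u v).2 huv, (X.ent_iff u w).2 huw, (key u v u.isLt v.isLt).2 h1,
          (key u w u.isLt w.isLt).2 h2] at h3
        simp at h3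
      · exact Fin.ext h3
    · intro h i hi j hj k hk
      by_cases h1 : X.mat.ent false i j = true
      · by_cases h2 : X.mat.ent false i k = true
        · by_cases h3 : l.getD i false = l.getD j false
          · left
            rw [show decide (l.getD i false = l.getD j false) = true from decide_eq_true h3]
            simp
          · by_cases h4 : l.getD i false = l.getD k false
            · left
              rw [show decide (l.getD i false = l.getD k false) = true from decide_eq_true h4]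
              simp
            · right
              have h5 := h ⟨i, hi⟩ ⟨j, hj⟩ ⟨k, hk⟩ ((X.ent_iff ⟨i, hi⟩ ⟨j, hj⟩).1 h1)
                ((X.ent_iff ⟨i, hi⟩ ⟨k, hk⟩).1 h2)
                ((key i j hi hj).1 (by simpa using h3)) ((key i k hi hk).1 (by simpa using h4))
              exact congrArg Fin.val h5
        · left; simp [h2]
      · left; simp [h1]

theorem inNPP_mcfree : InNPP MCfree := by
  refine inNPP_FG' ver_poly (4 * Polynomial.X + 1) ?_
  intro X
  constructor
  · rintro ⟨h1, A, h2⟩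
    refine ⟨indL A, ?_, ?_⟩
    · have e1 := sz_indL A
      have e2 := sz_mat_gt X.mat
      rw [FG.mat_n] at e2
      simp only [Polynomial.eval_add, Polynomial.eval_mul, Polynomial.eval_X,
        Polynomial.eval_ofNat, Polynomial.eval_one]
      omega
    · rw [ver_iff, indL_set]
      exact ⟨h1, h2⟩
  · rintro ⟨l, _, h⟩
    rw [ver_iff] at h
    exact ⟨h.1, _, h.2⟩

/-! ### The reduction -/

section Red

/-- labels: `(0,b,k)` are the points `p` of the blob `b`, `(1,b,k)` the points `z` of the blob `b`,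
`(2,i,0)` and `(3,i,0)` the two points of the constraint `i` -/
abbrev Lab : Type := ℕ × ℕ × ℕ

/-- the terminals: the blob that is used at the position `k` -/
def tm (C : List (ℕ × ℕ × ℕ)) (k : ℕ) : ℕ :=
  if k % 3 = 0 then (C.getD (k / 3) (0, 0, 0)).1 else
    if k % 3 = 1 then (C.getD (k / 3) (0, 0, 0)).2.1 else (C.getD (k / 3) (0, 0, 0)).2.2

/-- the cyclic successor -/
def nx (K k : ℕ) : ℕ := if k + 1 = K then 0 else k + 1

/-- the edges, in one direction -/
def adB (C : List (ℕ × ℕ × ℕ)) (x y : Lab) : Bool :=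
  ((decide (x.1 = 0) && (decide (y.1 = 0) && (decide (x.2.1 = y.2.1) &&
    decide (y.2.2 = nx (3 * C.length) x.2.2)))) ||
  (decide (x.1 = 1) && (decide (y.1 = 0) && (decide (x.2.1 = y.2.1) &&
    (decide (y.2.2 = x.2.2) || decide (y.2.2 = nx (3 * C.length) x.2.2)))))) ||
  ((decide (x.1 = 2) && (decide (y.1 = 0) && (decide (y.2.2 / 3 = x.2.1) &&
    decide (y.2.1 = tm C y.2.2)))) ||
  ((decide (x.1 = 3) && (decide (y.1 = 2) && decide (x.2.1 = y.2.1))) ||
  (decide (x.1 = 3) && (decide (y.1 = 0) && (decide (y.2.2 = 3 * x.2.1) &&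
    decide (y.2.1 = tm C y.2.2))))))

/-- the list of the vertices -/
def vsL (n N : ℕ) : List Lab :=
  ([0, 1] ×ˢ (List.range n ×ˢ List.range (3 * N))) ++ ([2, 3] ×ˢ (List.range N ×ˢ [0]))

/-- the graph -/
def red (I : CI) : FG :=
  FG.ofList (vsL (min I.1 I.2.length) I.2.length) (adB I.2)

theorem red_poly : Poly red := by
  unfold red
  refine Poly.FG_ofList (ad := fun I : CI => adB I.2) ?_ ?_
  · unfold vsL
    have h1 : UPoly (fun I : CI => I.2.length) := UPoly.length (by fun_prop)
    have h2 : Poly (fun I : CI => List.range (min I.1 I.2.length)) :=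
      UPoly.range (UPoly.of_le (n := fun I => I.2.length) (by fun_prop) h1
        (fun I => min_le_right _ _))
    have h3 : Poly (fun I : CI => List.range (3 * I.2.length)) :=
      UPoly.range (UPoly.mul (UPoly.const 3) h1)
    have h4 : Poly (fun I : CI => List.range I.2.length) := UPoly.range h1
    fun_prop
  · unfold adB nx tm
    fun_prop

/-- the vertices, as a type -/
inductive Vx (n N : ℕ) : Type
  | p (b : Fin n) (k : Fin (3 * N)) : Vx n N
  | z (b : Fin n) (k : Fin (3 * N)) : Vx n N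
  | v (i : Fin N) : Vx n N
  | w (i : Fin N) : Vx n N

variable {n N : ℕ}

/-- the labels -/
def lab : Vx n N → Lab
  | .p b k => (0, b, k)
  | .z b k => (1, b, k)
  | .v i => (2, i, 0)
  | .w i => (3, i, 0)

theorem lab_injective : Function.Injective (lab : Vx n N → Lab) := by
  rintro (⟨b, k⟩ | ⟨b, k⟩ | i | i) (⟨b', k'⟩ | ⟨b', k'⟩ | i' | i') h <;>
    simp only [lab, Prod.mk.injEq] at h <;> try omega
  · rw [Fin.ext h.2.1, Fin.ext h.2.2]
  · rw [Fin.ext h.2.1, Fin.ext h.2.2]
  · rw [Fin.ext h.2.1]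
  · rw [Fin.ext h.2.1]

theorem vsL_nodup (n N : ℕ) : (vsL n N).Nodup := by
  unfold vsL
  rw [List.nodup_append]
  refine ⟨List.Nodup.product (by simp) (List.Nodup.product List.nodup_range List.nodup_range),
    List.Nodup.product (by simp) (List.Nodup.product List.nodup_range (by simp)), ?_⟩
  rintro ⟨a1, a2⟩ ha ⟨b1, b2⟩ hb h
  have h1 := (List.mem_product.1 ha).1
  have h2 := (List.mem_product.1 hb).1
  simp only [List.mem_cons, List.not_mem_nil, or_false, Prod.mk.injEq] at h1 h2 h
  omega

theorem mem_vsL (n N : ℕ) (x : Lab) : x ∈ vsL n N ↔ ∃ y : Vx n N, lab y = x := by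
  obtain ⟨a, b, c⟩ := x
  unfold vsL
  simp only [List.mem_append, List.mem_product, List.mem_cons, List.not_mem_nil, or_false,
    List.mem_range]
  constructor
  · rintro (⟨rfl | rfl, hb, hc⟩ | ⟨rfl | rfl, hb, rfl⟩)
    · exact ⟨.p ⟨b, hb⟩ ⟨c, hc⟩, rfl⟩
    · exact ⟨.z ⟨b, hb⟩ ⟨c, hc⟩, rfl⟩
    · exact ⟨.v ⟨b, hb⟩, rfl⟩
    · exact ⟨.w ⟨b, hb⟩, rfl⟩
  · rintro ⟨y, hy⟩
    rcases y with ⟨b, k⟩ | ⟨b, k⟩ | i | i <;> simp only [lab, Prod.mk.injEq] at hy <;>
      obtain ⟨rfl, rfl, rfl⟩ := hy <;> simp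

/-- the graph on the vertex type -/
def HG (C : List (ℕ × ℕ × ℕ)) (n : ℕ) : SimpleGraph (Vx n C.length) where
  Adj x y := x ≠ y ∧ (adB C (lab x) (lab y) = true ∨ adB C (lab y) (lab x) = true)
  symm := ⟨fun _ _ h => ⟨h.1.symm, h.2.symm⟩⟩
  loopless := ⟨fun _ h => h.1 rfl⟩

variable {C : List (ℕ × ℕ × ℕ)}

theorem a_pp (b b' : Fin n) (k k' : Fin (3 * C.length)) : (HG C n).Adj (.p b k) (.p b' k') ↔
    b.1 = b'.1 ∧ (k'.1 = nx (3 * C.length) k ∨ k.1 = nx (3 * C.length) k') := by
  have hk := k.isLt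
  have hk' := k'.isLt
  simp only [HG, ne_eq, Vx.p.injEq, adB, lab, Fin.ext_iff, Bool.or_eq_true, Bool.and_eq_true,
    decide_eq_true_eq, true_and, zero_ne_one, false_and, false_or, or_false, and_false,
    OfNat.zero_ne_ofNat]
  unfold nx
  constructor
  · intro h
    omega
  · rintro ⟨h1, h2⟩
    refine ⟨?_, ?_⟩
    · rintro ⟨h3, h4⟩
      split_ifs at h2 <;> omega
    · omega

theorem a_pz (b b' : Fin n) (k k' : Fin (3 * C.length)) : (HG C n).Adj (.p b k) (.z b' k') ↔
    b.1 = b'.1 ∧ (k.1 = k'.1 ∨ k.1 = nx (3 * C.length) k') := by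
  simp only [HG, ne_eq, reduceCtorEq, not_false_eq_true, true_and, adB, lab, Bool.or_eq_true,
    Bool.and_eq_true, decide_eq_true_eq, zero_ne_one, one_ne_zero, false_and, false_or, or_false,
    and_false, OfNat.zero_ne_ofNat, OfNat.ofNat_ne_zero, OfNat.one_ne_ofNat, OfNat.ofNat_ne_one,
    Nat.reduceEqDiff]
  try omega

theorem a_pv (b : Fin n) (k : Fin (3 * C.length)) (i : Fin C.length) :
    (HG C n).Adj (.p b k) (.v i) ↔ k.1 / 3 = i.1 ∧ b.1 = tm C k := by
  simp only [HG, ne_eq, reduceCtorEq, not_false_eq_true, true_and, adB, lab, Bool.or_eq_true,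
    Bool.and_eq_true, decide_eq_true_eq, zero_ne_one, one_ne_zero, false_and, false_or, or_false,
    and_false, OfNat.zero_ne_ofNat, OfNat.ofNat_ne_zero, OfNat.one_ne_ofNat, OfNat.ofNat_ne_one,
    Nat.reduceEqDiff]
  try omega

theorem a_pw (b : Fin n) (k : Fin (3 * C.length)) (i : Fin C.length) :
    (HG C n).Adj (.p b k) (.w i) ↔ k.1 = 3 * i.1 ∧ b.1 = tm C k := by
  simp only [HG, ne_eq, reduceCtorEq, not_false_eq_true, true_and, adB, lab, Bool.or_eq_true,
    Bool.and_eq_true, decide_eq_true_eq, zero_ne_one, one_ne_zero, false_and, false_or, or_false,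
    and_false, OfNat.zero_ne_ofNat, OfNat.ofNat_ne_zero, OfNat.one_ne_ofNat, OfNat.ofNat_ne_one,
    Nat.reduceEqDiff]
  try omega

theorem a_zz (b b' : Fin n) (k k' : Fin (3 * C.length)) :
    ¬ (HG C n).Adj (.z b k) (.z b' k') := by simp [HG, adB, lab]
theorem a_zv (b : Fin n) (k : Fin (3 * C.length)) (i : Fin C.length) :
    ¬ (HG C n).Adj (.z b k) (.v i) := by simp [HG, adB, lab]
theorem a_zw (b : Fin n) (k : Fin (3 * C.length)) (i : Fin C.length) :
    ¬ (HG C n).Adj (.z b k) (.w i) := by simp [HG, adB, lab]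
theorem a_vv (i j : Fin C.length) : ¬ (HG C n).Adj (.v i) (.v j) := by simp [HG, adB, lab]
theorem a_ww (i j : Fin C.length) : ¬ (HG C n).Adj (.w i) (.w j) := by simp [HG, adB, lab]
theorem a_vw (i j : Fin C.length) : (HG C n).Adj (.v i) (.w j) ↔ i.1 = j.1 := by
  simp only [HG, ne_eq, reduceCtorEq, not_false_eq_true, true_and, adB, lab, Bool.or_eq_true,
    Bool.and_eq_true, decide_eq_true_eq, zero_ne_one, one_ne_zero, false_and, false_or, or_false,
    and_false, OfNat.zero_ne_ofNat, OfNat.ofNat_ne_zero, OfNat.one_ne_ofNat, OfNat.ofNat_ne_one,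
    Nat.reduceEqDiff]
  try omega

/-- the neighbours of `z` -/
theorem nb_z {b : Fin n} {k : Fin (3 * C.length)} {x : Vx n C.length}
    (h : (HG C n).Adj (.z b k) x) : ∃ k' : Fin (3 * C.length), x = .p b k' ∧
      (k'.1 = k.1 ∨ k'.1 = nx (3 * C.length) k) := by
  rcases x with ⟨b', k'⟩ | ⟨b', k'⟩ | i | i
  · have h1 := (a_pz _ _ _ _).1 h.symm
    rw [← Fin.ext h1.1]
    exact ⟨k', rfl, h1.2⟩
  · exact absurd h (a_zz _ _ _ _)
  · exact absurd h (a_zv _ _ _)
  · exact absurd h (a_zw _ _ _)

/-- the neighbours of `w` -/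
theorem nb_w {i : Fin C.length} {x : Vx n C.length}
    (h : (HG C n).Adj (.w i) x) : x = .v i ∨ ∃ (b : Fin n) (k : Fin (3 * C.length)),
      x = .p b k ∧ k.1 = 3 * i.1 ∧ b.1 = tm C k := by
  rcases x with ⟨b', k'⟩ | ⟨b', k'⟩ | j | j
  · exact Or.inr ⟨b', k', rfl, (a_pw _ _ _).1 h.symm⟩
  · exact absurd h.symm (a_zw _ _ _)
  · left
    rw [Fin.ext ((a_vw _ _).1 h.symm)]
  · exact absurd h (a_ww _ _)

theorem nx_inj {K k1 k2 : ℕ} (h : nx K k1 = nx K k2) (h1 : k1 < K) (h2 : k2 < K) : k1 = k2 := by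
  unfold nx at h
  split_ifs at h <;> omega

/-- a group at a point `p`, first kind -/
theorem grp_pz {b b1 b2 : Fin n} {k k1 k2 : Fin (3 * C.length)}
    (h1 : (HG C n).Adj (.p b k) (.p b1 k1)) (h2 : (HG C n).Adj (.p b k) (.z b2 k2))
    (hg : k1.1 = nx (3 * C.length) k ↔ k2 = k) (x : Vx n C.length)
    (hx : (HG C n).Adj (.z b2 k2) x) : x = .p b k ∨ x = .p b1 k1 := by
  obtain ⟨k', rfl, h3⟩ := nb_z hx
  obtain ⟨e1, e2⟩ := (a_pp _ _ _ _).1 h1
  obtain ⟨e3, e4⟩ := (a_pz _ _ _ _).1 h2
  have e5 : b = b1 := Fin.ext e1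
  have e6 : b = b2 := Fin.ext e3
  subst e5
  subst e6
  by_cases h4 : k2 = k
  · subst h4
    have h5 := hg.2 rfl
    rcases h3 with h3 | h3
    · left; rw [Fin.ext h3]
    · right; rw [Fin.ext (h3.trans h5.symm)]
  · have h5 : k1.1 ≠ nx (3 * C.length) k := fun h => h4 (hg.1 h)
    have h6 : k.1 = nx (3 * C.length) k1 := by tauto
    have h7 : k.1 = nx (3 * C.length) k2 := by
      rcases e4 with e4 | e4
      · exact absurd (Fin.ext e4).symm h4
      · exact e4
    have h8 := nx_inj (h6.symm.trans h7) k1.isLt k2.isLt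
    rcases h3 with h3 | h3
    · right; rw [Fin.ext (h3.trans h8.symm)]
    · left; rw [Fin.ext (h3.trans h7.symm)]

/-- a group at a point `p`, second kind -/
theorem grp_vw {b : Fin n} {k : Fin (3 * C.length)} {i j : Fin C.length}
    (h1 : (HG C n).Adj (.p b k) (.v i)) (h2 : (HG C n).Adj (.p b k) (.w j)) (x : Vx n C.length)
    (hx : (HG C n).Adj (.w j) x) : x = .p b k ∨ x = .v i := by
  obtain ⟨e1, e2⟩ := (a_pv _ _ _).1 h1
  obtain ⟨e3, e4⟩ := (a_pw _ _ _).1 h2
  rcases nb_w hx with rfl | ⟨b', k', rfl, h3, h4⟩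
  · right
    congr 1
    apply Fin.ext
    omega
  · left
    have h5 : k' = k := Fin.ext (h3.trans e3.symm)
    subst h5
    rw [Fin.ext (h4.trans e4.symm)]

/-- a group at a point `v` -/
theorem grp_pw {b : Fin n} {k : Fin (3 * C.length)} {i j : Fin C.length}
    (h1 : (HG C n).Adj (.v i) (.p b k)) (h2 : (HG C n).Adj (.v i) (.w j)) (h3 : k.1 = 3 * i.1)
    (x : Vx n C.length) (hx : (HG C n).Adj (.w j) x) : x = .v i ∨ x = .p b k := by
  obtain ⟨e1, e2⟩ := (a_pv _ _ _).1 h1.symm
  have e3 := (a_vw _ _).1 h2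
  rcases nb_w hx with rfl | ⟨b', k', rfl, h3, h4⟩
  · left
    rw [Fin.ext e3]
  · right
    have h5 : k' = k := Fin.ext (by omega)
    subst h5
    rw [Fin.ext (h4.trans e2.symm)]

theorem free_HG : S2222.Free (HG C n) := by
  refine free_of_groups _ fun c => ?_
  rcases c with ⟨b, k⟩ | ⟨b, k⟩ | i | i
  · -- the centre is a point `p`
    refine ⟨fun x => match x with
      | .p _ k' => if k'.1 = nx (3 * C.length) k then 0 else 1
      | .z _ k' => if k' = k then 0 else 1
      | .v _ => 2
      | .w _ => 2, fun u v hu hv huv hg => ?_⟩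
    rcases u with ⟨b1, k1⟩ | ⟨b1, k1⟩ | i | i <;> rcases v with ⟨b2, k2⟩ | ⟨b2, k2⟩ | j | j <;>
      simp only at hg
    · exfalso
      apply huv
      obtain ⟨e1, e2⟩ := (a_pp _ _ _ _).1 hu
      obtain ⟨e3, e4⟩ := (a_pp _ _ _ _).1 hv
      rw [← Fin.ext e1, ← Fin.ext e3]
      congr 1
      apply Fin.ext
      by_cases h1 : k1.1 = nx (3 * C.length) k <;> by_cases h2 : k2.1 = nx (3 * C.length) k
      · exact h1.trans h2.symm
      · rw [if_pos h1, if_neg h2] at hg
        exact absurd hg (by simp)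
      · rw [if_neg h1, if_pos h2] at hg
        exact absurd hg (by simp)
      · exact nx_inj ((e2.resolve_left h1).symm.trans (e4.resolve_left h2)) k1.isLt k2.isLt
    · right
      refine grp_pz hu hv ?_
      constructor
      · intro h
        by_contra h'
        rw [if_pos h, if_neg h'] at hg
        exact absurd hg (by simp)
      · intro h
        by_contra h'
        rw [if_neg h', if_pos h] at hg
        exact absurd hg (by simp)
    · exfalso
      split_ifs at hg <;> exact absurd hg (by simp)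
    · exfalso
      split_ifs at hg <;> exact absurd hg (by simp)
    · left
      refine grp_pz hv hu ?_
      constructor
      · intro h
        by_contra h'
        rw [if_pos h, if_neg h'] at hg
        exact absurd hg (by simp)
      · intro h
        by_contra h'
        rw [if_neg h', if_pos h] at hg
        exact absurd hg (by simp)
    · exfalso
      apply huv
      obtain ⟨e1, e2⟩ := (a_pz _ _ _ _).1 hu
      obtain ⟨e3, e4⟩ := (a_pz _ _ _ _).1 hv
      rw [← Fin.ext e1, ← Fin.ext e3]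
      congr 1
      apply Fin.ext
      by_cases h1 : k1 = k <;> by_cases h2 : k2 = k
      · rw [h1, h2]
      · rw [if_pos h1, if_neg h2] at hg
        exact absurd hg (by simp)
      · rw [if_neg h1, if_pos h2] at hg
        exact absurd hg (by simp)
      · exact nx_inj ((e2.resolve_left (fun h => h1 (Fin.ext h.symm))).symm.trans
          (e4.resolve_left (fun h => h2 (Fin.ext h.symm)))) k1.isLt k2.isLt
    · exfalso
      split_ifs at hg <;> exact absurd hg (by simp)
    · exfalso
      split_ifs at hg <;> exact absurd hg (by simp)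
    · exfalso
      split_ifs at hg <;> exact absurd hg (by simp)
    · exfalso
      split_ifs at hg <;> exact absurd hg (by simp)
    · exfalso
      apply huv
      have e1 := ((a_pv _ _ _).1 hu).1
      have e2 := ((a_pv _ _ _).1 hv).1
      rw [Fin.ext (e1.symm.trans e2)]
    · right
      exact grp_vw hu hv
    · exfalso
      split_ifs at hg <;> exact absurd hg (by simp)
    · exfalso
      split_ifs at hg <;> exact absurd hg (by simp)
    · left
      exact grp_vw hv hu
    · exfalso
      apply huv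
      have e1 := ((a_pw _ _ _).1 hu).1
      have e2 := ((a_pw _ _ _).1 hv).1
      congr 1
      apply Fin.ext
      omega
  · -- the centre is a point `z`
    refine ⟨fun x => match x with
      | .p _ k' => if k' = k then 0 else 1
      | _ => 2, fun u v hu hv huv hg => ?_⟩
    obtain ⟨k1, rfl, h1⟩ := nb_z hu
    obtain ⟨k2, rfl, h2⟩ := nb_z hv
    exfalso
    apply huv
    congr 1
    apply Fin.ext
    simp only at hg
    split_ifs at hg with h3 h4 h4
    · rw [h3, h4]
    · exact absurd hg (by simp)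
    · exact absurd hg (by simp)
    · have e3 : k1.1 ≠ k.1 := fun h => h3 (Fin.ext h)
      have e4 : k2.1 ≠ k.1 := fun h => h4 (Fin.ext h)
      omega
  · -- the centre is a point `v`
    refine ⟨fun x => match x with
      | .p _ k' => if k'.1 = 3 * i.1 then 0 else if k'.1 = 3 * i.1 + 1 then 1 else 2
      | _ => 0, fun u v hu hv huv hg => ?_⟩
    rcases u with ⟨b1, k1⟩ | ⟨b1, k1⟩ | i1 | i1 <;> rcases v with ⟨b2, k2⟩ | ⟨b2, k2⟩ | j | j <;>
      simp only at hg <;> try exact absurd hu.symm (a_zv _ _ _)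
    all_goals try exact absurd hv.symm (a_zv _ _ _)
    all_goals try exact absurd hu (a_vv _ _)
    all_goals try exact absurd hv (a_vv _ _)
    · exfalso
      apply huv
      obtain ⟨e1, e2⟩ := (a_pv _ _ _).1 hu.symm
      obtain ⟨e3, e4⟩ := (a_pv _ _ _).1 hv.symm
      have e5 : k1 = k2 := by
        apply Fin.ext
        by_cases c1 : k1.1 = 3 * i.1 <;> by_cases c2 : k1.1 = 3 * i.1 + 1 <;>
          by_cases c3 : k2.1 = 3 * i.1 <;> by_cases c4 : k2.1 = 3 * i.1 + 1 <;>
          simp [c1, c2, c3, c4] at hg <;> omega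
      subst e5
      rw [Fin.ext (e2.trans e4.symm)]
    · right
      refine grp_pw hu hv ?_
      by_contra h
      rw [if_neg h] at hg
      split_ifs at hg <;> exact absurd hg (by simp)
    · left
      refine grp_pw hv hu ?_
      by_contra h
      rw [if_neg h] at hg
      split_ifs at hg <;> exact absurd hg (by simp)
    · exfalso
      apply huv
      rw [Fin.ext (((a_vw _ _).1 hu).symm.trans ((a_vw _ _).1 hv))]
  · -- the centre is a point `w`
    refine ⟨fun x => match x with
      | .v _ => 0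
      | _ => 1, fun u v hu hv huv hg => ?_⟩
    rcases nb_w hu with rfl | ⟨b1, k1, rfl, h1, h2⟩ <;>
      rcases nb_w hv with rfl | ⟨b2, k2, rfl, h3, h4⟩
    · exact absurd rfl huv
    · exact absurd hg (by simp)
    · exact absurd hg (by simp)
    · exfalso
      apply huv
      have e5 : k1 = k2 := Fin.ext (h1.trans h3.symm)
      subst e5
      rw [Fin.ext (h2.trans h4.symm)]

/-- In a matching cut the ends of an edge in a triangle are on the same side. -/
theorem tri {V : Type} {G : SimpleGraph V} {A : Set V} (h : IsMatchingCut G A) {u v w : V}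
    (huv : G.Adj u v) (huw : G.Adj u w) (hvw : G.Adj v w) : u ∈ A ↔ v ∈ A := by
  by_contra hc
  by_cases h1 : u ∈ A ↔ w ∈ A
  · exact huw.ne (h.2.2 v u w huv.symm hvw (fun h' => hc h'.symm) (fun h' => hc (h1.trans h'.symm)))
  · exact hvw.ne (h.2.2 u v w huv huw hc h1)

theorem tm0 (C : List (ℕ × ℕ × ℕ)) (i : ℕ) : tm C (3 * i) = (C.getD i (0, 0, 0)).1 := by
  unfold tm
  rw [if_pos (by omega), show 3 * i / 3 = i by omega]
theorem tm1 (C : List (ℕ × ℕ × ℕ)) (i : ℕ) : tm C (3 * i + 1) = (C.getD i (0, 0, 0)).2.1 := by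
  unfold tm
  rw [if_neg (by omega), if_pos (by omega), show (3 * i + 1) / 3 = i by omega]
theorem tm2 (C : List (ℕ × ℕ × ℕ)) (i : ℕ) : tm C (3 * i + 2) = (C.getD i (0, 0, 0)).2.2 := by
  unfold tm
  rw [if_neg (by omega), if_neg (by omega), show (3 * i + 2) / 3 = i by omega]

/-- Correctness of the reduction. -/
theorem core {I : CI} (h : PrC I) : NonConst I ↔ HasMatchingCut (HG I.2 I.1) := by
  obtain ⟨n, C⟩ := I
  obtain ⟨hlt, hnN⟩ := h
  simp only at hlt hnN
  have hget : ∀ i < C.length, C.getD i (0, 0, 0) ∈ C := by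
    intro i hi
    rw [List.getD_eq_getElem _ _ hi]
    exact List.getElem_mem _
  constructor
  · rintro ⟨f, ⟨b1, hb1, b2, hb2, hb12⟩, hf⟩
    simp only at hb1 hb2 hf
    let col : Vx n C.length → Bool
      | .p b _ => f b
      | .z b _ => f b
      | .v i => f (C.getD i (0, 0, 0)).1
      | .w i => f (C.getD i (0, 0, 0)).1
    have hN : 0 < 3 * C.length := by omega
    -- the ends of a cut edge
    have hcut : ∀ x y, (HG C n).Adj x y → col x ≠ col y →
        (∃ b k i, x = .p b k ∧ y = .v i) ∨ (∃ b k i, y = .p b k ∧ x = .v i) := by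
      have hpw : ∀ b k i, (HG C n).Adj (.p b k) (.w i) → col (.p b k) = col (.w i) := by
        intro b k i h
        obtain ⟨e1, e2⟩ := (a_pw _ _ _).1 h
        simp only [col]
        rw [e2, e1, tm0]
      rintro x y hxy hc
      rcases x with ⟨b1, k1⟩ | ⟨b1, k1⟩ | i1 | i1 <;> rcases y with ⟨b2, k2⟩ | ⟨b2, k2⟩ | j | j
      · exact absurd (congrArg f ((a_pp _ _ _ _).1 hxy).1) hc
      · exact absurd (congrArg f ((a_pz _ _ _ _).1 hxy).1) hc
      · exact Or.inl ⟨_, _, _, rfl, rfl⟩
      · exact absurd (hpw _ _ _ hxy) hc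
      · exact absurd (congrArg f ((a_pz _ _ _ _).1 hxy.symm).1).symm hc
      · exact absurd hxy (a_zz _ _ _ _)
      · exact absurd hxy (a_zv _ _ _)
      · exact absurd hxy (a_zw _ _ _)
      · exact Or.inr ⟨_, _, _, rfl, rfl⟩
      · exact absurd hxy.symm (a_zv _ _ _)
      · exact absurd hxy (a_vv _ _)
      · exfalso
        apply hc
        simp only [col]
        rw [(a_vw _ _).1 hxy]
      · exact absurd (hpw _ _ _ hxy.symm).symm hc
      · exact absurd hxy.symm (a_zw _ _ _)
      · exfalso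
        apply hc
        simp only [col]
        rw [(a_vw _ _).1 hxy.symm]
      · exact absurd hxy (a_ww _ _)
    have hne : ∀ x y : Vx n C.length, ¬ (x ∈ {x | col x = true} ↔ y ∈ {x | col x = true}) →
        col x ≠ col y := by
      intro x y h h'
      apply h
      simp only [Set.mem_ofPred_eq, h']
    refine ⟨{x | col x = true}, ?_, ?_, ?_⟩
    · by_cases hv : f b1 = true
      · exact ⟨.p ⟨b1, hb1⟩ ⟨0, hN⟩, hv⟩
      · refine ⟨.p ⟨b2, hb2⟩ ⟨0, hN⟩, ?_⟩
        simp only [Set.mem_ofPred_eq, col]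
        cases h2 : f b2 <;> simp_all
    · by_cases hv : f b1 = true
      · refine ⟨.p ⟨b2, hb2⟩ ⟨0, hN⟩, ?_⟩
        simp only [Set.mem_compl_iff, Set.mem_ofPred_eq, col]
        intro h2
        exact hb12 (hv.trans h2.symm)
      · exact ⟨.p ⟨b1, hb1⟩ ⟨0, hN⟩, hv⟩
    · intro u x y hux huy h1 h2
      have h1' := hne _ _ h1
      have h2' := hne _ _ h2
      rcases hcut _ _ hux h1' with ⟨b, k, i, rfl, rfl⟩ | ⟨b, k, i, rfl, rfl⟩
      · rcases hcut _ _ huy h2' with ⟨b', k', i', h3, rfl⟩ | ⟨b', k', i', rfl, h3⟩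
        · have e1 := ((a_pv _ _ _).1 hux).1
          have e2 := ((a_pv _ _ _).1 huy).1
          rw [Fin.ext (e1.symm.trans e2)]
        · exact absurd h3 (by simp)
      · rcases hcut _ _ huy h2' with ⟨b', k', i', h3, rfl⟩ | ⟨b', k', i', rfl, h3⟩
        · exact absurd h3 (by simp)
        · obtain ⟨e1, e2⟩ := (a_pv _ _ _).1 hux.symm
          obtain ⟨e3, e4⟩ := (a_pv _ _ _).1 huy.symm
          have hk : k.1 = 3 * i.1 ∨ k.1 = 3 * i.1 + 1 ∨ k.1 = 3 * i.1 + 2 := by omega
          have hk' : k'.1 = 3 * i.1 ∨ k'.1 = 3 * i.1 + 1 ∨ k'.1 = 3 * i.1 + 2 := by omega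
          have hfc := hf _ (hget i i.isLt)
          have hkne : ∀ (b : Fin n) (k : Fin (3 * C.length)), b.1 = tm C k →
              col (.v i) ≠ col (.p b k) → k.1 ≠ 3 * i.1 := by
            intro b k e h h'
            apply h
            simp only [col]
            rw [e, h', tm0]
          have g1 := hkne _ _ e2 h1'
          have g2 := hkne _ _ e4 h2'
          have g3 : k = k' := by
            apply Fin.ext
            simp only [col] at h1' h2'
            rw [e2] at h1'
            rw [e4] at h2'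
            rcases hk with hk | hk | hk
            · exact absurd hk g1
            · rcases hk' with hk' | hk' | hk'
              · exact absurd hk' g2
              · omega
              · exfalso
                rw [hk, tm1] at h1'
                rw [hk', tm2] at h2'
                rcases hfc with h | h
                · exact h1' h
                · exact h2' h
            · rcases hk' with hk' | hk' | hk'
              · exact absurd hk' g2
              · exfalso
                rw [hk, tm2] at h1'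
                rw [hk', tm1] at h2'
                rcases hfc with h | h
                · exact h2' h
                · exact h1' h
              · omega
          subst g3
          rw [Fin.ext (e2.trans e4.symm)]
  · rintro ⟨A, hA⟩
    classical
    have hN : ∀ b : Fin n, 0 < 3 * C.length := fun b => by have := b.isLt; omega
    -- a blob has one colour
    have hz : ∀ (b : Fin n) (k k' : Fin (3 * C.length)), k'.1 = nx (3 * C.length) k →
        ((Vx.p b k ∈ A ↔ Vx.p b k' ∈ A) ∧ (Vx.z b k ∈ A ↔ Vx.p b k ∈ A)) := by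
      intro b k k' hk
      have a1 : (HG C n).Adj (.p b k) (.p b k') := (a_pp _ _ _ _).2 ⟨rfl, Or.inl hk⟩
      have a2 : (HG C n).Adj (.p b k) (.z b k) := (a_pz _ _ _ _).2 ⟨rfl, Or.inl rfl⟩
      have a3 : (HG C n).Adj (.p b k') (.z b k) := (a_pz _ _ _ _).2 ⟨rfl, Or.inr hk⟩
      exact ⟨tri hA a1 a2 a3, tri hA a2.symm a3.symm a1⟩
    have hp : ∀ (b : Fin n) (k : ℕ) (hk : k < 3 * C.length),
        (Vx.p b ⟨k, hk⟩ ∈ A ↔ Vx.p b ⟨0, hN b⟩ ∈ A) := by
      intro b k
      induction k with
      | zero => exact fun hk => Iff.rfl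
      | succ k ih =>
        intro hk
        rw [← ih (by omega)]
        refine (hz b ⟨k, by omega⟩ ⟨k + 1, hk⟩ ?_).1.symm
        unfold nx
        rw [if_neg (by simp only; omega)]
    have hz2 : ∀ (b : Fin n) (k : Fin (3 * C.length)), (Vx.z b k ∈ A ↔ Vx.p b k ∈ A) := by
      intro b k
      refine (hz b k ⟨nx (3 * C.length) k, ?_⟩ rfl).2
      unfold nx
      split_ifs <;> omega
    -- terminals
    have hvw : ∀ i : Fin C.length, ∀ b : Fin n, b.1 = tm C (3 * i.1) →
        (Vx.v i ∈ A ↔ Vx.p b ⟨0, hN b⟩ ∈ A) ∧ (Vx.w i ∈ A ↔ Vx.p b ⟨0, hN b⟩ ∈ A) := by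
      intro i b hb
      have hk : 3 * i.1 < 3 * C.length := by omega
      have a1 : (HG C n).Adj (.p b ⟨3 * i.1, hk⟩) (.v i) := (a_pv _ _ _).2 ⟨by simp, hb⟩
      have a2 : (HG C n).Adj (.p b ⟨3 * i.1, hk⟩) (.w i) := (a_pw _ _ _).2 ⟨rfl, hb⟩
      have a3 : (HG C n).Adj (.v i) (.w i) := (a_vw _ _).2 rfl
      rw [← hp b _ hk]
      exact ⟨(tri hA a1 a2 a3).symm, (tri hA a2 a1 a3.symm).symm⟩
    let f : ℕ → Bool := fun b => if h : b < n then
      decide (Vx.p (N := C.length) ⟨b, h⟩ ⟨0, hN ⟨b, h⟩⟩ ∈ A) else false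
    have hf : ∀ b : Fin n, f b = decide (Vx.p (N := C.length) b ⟨0, hN b⟩ ∈ A) := by
      intro b
      simp only [f]
      rw [dif_pos b.isLt]
    have htm : ∀ i < C.length, tm C (3 * i) < n ∧ tm C (3 * i + 1) < n ∧
        tm C (3 * i + 2) < n := by
      intro i hi
      rw [tm0, tm1, tm2]
      exact hlt _ (hget i hi)
    refine ⟨f, ?_, ?_⟩
    · -- the solution is not constant
      by_contra hc
      push Not at hc
      simp only at hc
      have hall : ∀ x y : Vx n C.length, x ∈ A → y ∈ A := by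
        have hrep : ∀ x : Vx n C.length, ∃ b : Fin n, (x ∈ A ↔ f b = true) := by
          intro x
          rcases x with ⟨b, k⟩ | ⟨b, k⟩ | i | i
          · refine ⟨b, ?_⟩
            rw [hf, decide_eq_true_eq]
            exact hp b k.1 k.2
          · refine ⟨b, ?_⟩
            rw [hf, decide_eq_true_eq, hz2]
            exact hp b k.1 k.2
          · refine ⟨⟨tm C (3 * i.1), (htm i i.isLt).1⟩, ?_⟩
            rw [hf, decide_eq_true_eq]
            exact (hvw i _ rfl).1
          · refine ⟨⟨tm C (3 * i.1), (htm i i.isLt).1⟩, ?_⟩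
            rw [hf, decide_eq_true_eq]
            exact (hvw i _ rfl).2
        intro x y hx
        obtain ⟨b, hb⟩ := hrep x
        obtain ⟨b', hb'⟩ := hrep y
        rw [hb', ← hc b b.isLt b' b'.isLt, ← hb]
        exact hx
      obtain ⟨x, hx⟩ := hA.1
      obtain ⟨y, hy⟩ := hA.2.1
      exact hy (hall x y hx)
    · intro c hc
      change c ∈ C at hc
      obtain ⟨i, hi, rfl⟩ := List.mem_iff_getElem.1 hc
      obtain ⟨t0, t1, t2⟩ := htm i hi
      have hge : C.getD i (0, 0, 0) = C[i] := List.getD_eq_getElem _ _ hi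
      have e0 : C[i].1 = (⟨tm C (3 * i), t0⟩ : Fin n).1 := by
        simp only
        rw [tm0, hge]
      have e1 : C[i].2.1 = (⟨tm C (3 * i + 1), t1⟩ : Fin n).1 := by
        simp only
        rw [tm1, hge]
      have e2 : C[i].2.2 = (⟨tm C (3 * i + 2), t2⟩ : Fin n).1 := by
        simp only
        rw [tm2, hge]
      rw [e0, e1, e2, hf, hf, hf]
      by_contra hcon
      push Not at hcon
      obtain ⟨c1, c2⟩ := hcon
      have hv := (hvw ⟨i, hi⟩ ⟨tm C (3 * i), t0⟩ rfl).1
      have q1 : (3 * i + 1) / 3 = i := by omega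
      have q2 : (3 * i + 2) / 3 = i := by omega
      have q3 : 3 * i + 1 < 3 * C.length := by omega
      have q4 : 3 * i + 2 < 3 * C.length := by omega
      have a1 : (HG C n).Adj (.v ⟨i, hi⟩) (.p ⟨tm C (3 * i + 1), t1⟩ ⟨3 * i + 1, q3⟩) :=
        ((a_pv _ _ _).2 ⟨q1, rfl⟩).symm
      have a2 : (HG C n).Adj (.v ⟨i, hi⟩) (.p ⟨tm C (3 * i + 2), t2⟩ ⟨3 * i + 2, q4⟩) :=
        ((a_pv _ _ _).2 ⟨q2, rfl⟩).symm
      have h5 := hA.2.2 _ _ _ a1 a2 (by
        rw [hv, hp _ (3 * i + 1)]
        intro h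
        exact c1 (by rw [decide_eq_decide]; exact h)) (by
        rw [hv, hp _ (3 * i + 2)]
        intro h
        exact c2 (by rw [decide_eq_decide]; exact h))
      simp at h5

end Red

theorem IsMatchingCut.iso {V W : Type} {G : SimpleGraph V} {H : SimpleGraph W} (e : G ≃g H)
    (h : HasMatchingCut G) : HasMatchingCut H := by
  obtain ⟨A, ⟨a, ha⟩, ⟨b, hb⟩, h3⟩ := h
  refine ⟨{w | e.symm w ∈ A}, ⟨e a, by simpa using ha⟩, ⟨e b, by simpa using hb⟩, ?_⟩
  intro u v w huv huw h1 h2
  exact e.symm.injective (h3 _ _ _ (e.symm.map_adj_iff.2 huv) (e.symm.map_adj_iff.2 huw) h1 h2)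

theorem free_iso {V W : Type} {G : SimpleGraph V} {H : SimpleGraph W} (e : G ≃g H)
    (h : S2222.Free H) : S2222.Free G := fun hc =>
  h (hc.trans ⟨e.toCopy⟩)

theorem red_spec {I : CI} (h : PrC I) :
    S2222.Free (red I).G ∧ (NonConst I ↔ HasMatchingCut (red I).G) := by
  have h2 : min I.1 I.2.length = I.1 := min_eq_left h.2
  obtain ⟨e⟩ : Nonempty ((red I).G ≃g HG I.2 I.1) := by
    unfold red
    rw [h2]
    exact FG.ofList_iso (vsL I.1 I.2.length) (vsL_nodup _ _) lab lab_injective
      (mem_vsL I.1 I.2.length) (adB I.2) (HG I.2 I.1) (fun x y => Iff.rfl)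
  refine ⟨free_iso e free_HG, ?_⟩
  rw [core h]
  exact ⟨IsMatchingCut.iso e.symm, IsMatchingCut.iso e⟩

/-- The problem with the promise that the graph is `S_{2,2,2,2}`-subgraph-free is `NP`-hard. -/
theorem hardPr_mc : HardPr (fun X : FG => S2222.Free X.G) (fun X : FG => HasMatchingCut X.G) :=
  hardPr_nonConst.trans red_poly (fun _ h => (red_spec h).1) (fun _ h => (red_spec h).2)

/-- **Matching Cut is `NP`-complete on `S_{2,2,2,2}`-subgraph-free graphs**: the problem whether the input
is an `S_{2,2,2,2}`-subgraph-free graph with a matching cut is in `NP` and `NP`-hard; moreover every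
language in `NP` has a polynomial-time reduction to Matching Cut all whose images are
`S_{2,2,2,2}`-subgraph-free graphs. -/
theorem result : InNPP MCfree ∧ NPHardP MCfree ∧
    ∀ L, InNP L → ∃ f : List Bool → List Bool, PolyTime f ∧ ∀ x, ∃ X : FG, f x = bits X ∧
      S2222.Free X.G ∧ (x ∈ L ↔ HasMatchingCut X.G) := by
  refine ⟨inNPP_mcfree, ?_, ?_⟩
  · refine (hardPr_mc.trans (Pr' := fun _ => True) (f := fun X => X) NPC.Poly.id
      (fun _ _ => trivial) (fun X hX => ?_)).toHardI.toNPHardP
    exact ⟨fun h => ⟨hX, h⟩, fun h => h.2⟩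
  · intro L hL
    obtain ⟨f, hf, hf1, hf2⟩ := hardPr_mc L hL
    exact ⟨fun x => bits (f x), PC.toPolyTime hf, fun x => ⟨f x, rfl, hf1 x, hf2 x⟩⟩

end Pool.Agent.Results.MP_12d0d1_lc.MatchingCutS2222
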